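import Pool.Agent.helper47.MSW.SpecA
import Pool.Agent.helper47.MSW.SpecC

/-! # msw:GPP. The swap in the middle region -/

set_option autoImplicit false

namespace Pool.Agent.MSW

open Equiv Finset Function MeasureTheory Pool.Agent.helper48.PP
open Pool.Agent.DSW (Pr Has GP wt)
open scoped ENNReal Classical

/-- two cells in increasing position give the pattern `12` -/
theorem GPP_12 (hHLA : HLA_stmt) (ω : Om) (p q u v : Pt) (hu : ω u = true) (hv : ω v = true)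
    (hub : u ∈ box p q) (hvb : v ∈ box p q) (h1 : u.1 < v.1) (h2 : u.2 < v.2) :
    HL [sw true] ω p q := by
  obtain ⟨_, _, _, _, _, _, h7⟩ := hHLA
  rw [h7]
  rw [mem_box] at hub hvb
  refine ⟨⟨by show p.1 ≤ q.1; omega, by show p.2 ≤ q.2; omega⟩, ![u.1, v.1], ![u.2, v.2], ?_, ?_, ?_⟩
  · intro i j hij
    fin_cases i <;> fin_cases j
    · exact absurd hij (lt_irrefl _)
    · exact h1
    · exact absurd hij (by decide)
    · exact absurd hij (lt_irrefl _)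
  · intro i j hij
    fin_cases i <;> fin_cases j
    · exact absurd hij (lt_irrefl _)
    · exact h2
    · exact absurd hij (by decide)
    · exact absurd hij (lt_irrefl _)
  · intro j
    fin_cases j
    · exact ⟨hu, ⟨hub.1.1, hub.2.1⟩, ⟨hub.1.2, hub.2.2⟩⟩
    · exact ⟨hv, ⟨hvb.1.1, hvb.2.1⟩, ⟨hvb.1.2, hvb.2.2⟩⟩

/-- the pattern `21` gives two cells in decreasing position -/
theorem GPP_21 (hHLA : HLA_stmt) (ω : Om) (p q : Pt) (h : HL [sw false] ω p q) :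
    ∃ u v : Pt, ω u = true ∧ ω v = true ∧ u ∈ box p q ∧ v ∈ box p q ∧ u.1 < v.1 ∧ v.2 < u.2 := by
  obtain ⟨_, _, _, _, _, _, h7⟩ := hHLA
  rw [h7] at h
  obtain ⟨_, x, y, hx, hy, hxy⟩ := h
  have a0 := hxy (0 : Fin 2)
  have a1 := hxy (1 : Fin 2)
  have e0 : (sw false).2 (0 : Fin 2) = (1 : Fin 2) := rfl
  have e1 : (sw false).2 (1 : Fin 2) = (0 : Fin 2) := rfl
  rw [e0] at a0
  rw [e1] at a1
  have l1 : x (0 : Fin 2) < x (1 : Fin 2) := hx (by decide)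
  have l2 : y (0 : Fin 2) < y (1 : Fin 2) := hy (by decide)
  refine ⟨(x (0 : Fin 2), y (1 : Fin 2)), (x (1 : Fin 2), y (0 : Fin 2)), a0.1, a1.1, ?_, ?_,
    l1, l2⟩
  · rw [mem_box]
    exact ⟨⟨a0.2.1.1, a1.2.2.1⟩, ⟨a0.2.1.2, a1.2.2.2⟩⟩
  · rw [mem_box]
    exact ⟨⟨a1.2.1.1, a0.2.2.1⟩, ⟨a1.2.1.2, a0.2.2.2⟩⟩

/-- the exchange for a decreasing set -/
theorem GPP_ex (hDCS : DCS_stmt) (hDEC : DEC_stmt) (T : Finset Pt) (hT : DcS T)
    (Bx : Set (Pt × Pt)) (hb : ∀ c ∈ T, ∃ b ∈ Bx, c ∈ box b.1 b.2) :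
    ∃ T' : Finset Pt, T'.card = T.card ∧ T'.image Prod.fst = T.image Prod.fst ∧
      T'.image Prod.snd = T.image Prod.snd ∧ (∀ c ∈ T', ∃ b ∈ Bx, c ∈ box b.1 b.2) ∧
      (∀ b ∈ Bx, ∀ u ∈ T', ∀ v ∈ T', u ∈ box b.1 b.2 → v ∈ box b.1 b.2 → u.1 < v.1 →
        ¬ v.2 < u.2) ∧ GP T' := by
  obtain ⟨x, y, hx, hy, hS⟩ := hDCS.1 T hT
  have hm : ∀ i, (x i, y (Fin.rev i)) ∈ T := by
    intro i
    have h := Finset.mem_image_of_mem (fun i => (x i, y (Fin.rev i))) (Finset.mem_univ i)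
    rw [← hS] at h
    exact h
  obtain ⟨π, hπ1, hπ2⟩ := hDEC T.card x y Bx hx hy (fun i => hb _ (hm i))
  refine ⟨Finset.univ.image fun i => (x i, y (π i)), ?_, ?_, ?_, ?_, ?_, ?_⟩
  · rw [Finset.card_image_of_injective]
    · exact Finset.card_fin _
    · intro i j hij
      exact hx.injective (Prod.ext_iff.1 hij).1
  · conv_rhs => rw [hS]
    rw [Finset.image_image, Finset.image_image]
    rfl
  · conv_rhs => rw [hS]
    rw [Finset.image_image, Finset.image_image]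
    ext c
    simp only [Finset.mem_image, Finset.mem_univ, true_and, Function.comp]
    constructor
    · rintro ⟨i, rfl⟩
      exact ⟨Fin.rev (π i), by rw [Fin.rev_rev]⟩
    · rintro ⟨i, rfl⟩
      exact ⟨π.symm (Fin.rev i), by rw [Equiv.apply_symm_apply]⟩
  · intro c hc
    obtain ⟨i, _, rfl⟩ := Finset.mem_image.1 hc
    exact hπ1 i
  · intro b hbB u hu v hv hub hvb h1 h2
    obtain ⟨i, _, rfl⟩ := Finset.mem_image.1 hu
    obtain ⟨j, _, rfl⟩ := Finset.mem_image.1 hv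
    exact hπ2 b hbB i j (hx.lt_iff_lt.1 h1) (hy.lt_iff_lt.1 h2) ⟨hub, hvb⟩
  · intro u hu v hv h
    obtain ⟨i, _, rfl⟩ := Finset.mem_image.1 hu
    obtain ⟨j, _, rfl⟩ := Finset.mem_image.1 hv
    rcases h with h | h
    · rw [hx.injective h]
    · rw [π.injective (hy.injective h)]

/-- the part in the middle region -/
noncomputable def GPP_G (X Y : List Pat) (w : Pt) (S : Finset Pt) : Finset Pt :=
  S.filter fun c => inG X Y (ind S) w c

theorem GPP_inG_box (hHMN : HMN_stmt) {X Y : List Pat} {ω : Om} {w c : Pt}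
    (h : inG X Y ω w c) : c ∈ box 0 w := by
  obtain ⟨p, q, _, hq, hc⟩ := h
  have hqw := hHMN.2.2.2.2.1 Y ω w q hq
  rw [mem_box] at hc ⊢
  have h1 : q.1 ≤ w.1 := hqw.1
  have h2 : q.2 ≤ w.2 := hqw.2
  exact ⟨⟨Nat.zero_le _, Nat.zero_le _⟩, ⟨by omega, by omega⟩⟩

theorem GPP_ind {S : Finset Pt} {c : Pt} : ind S c = true ↔ c ∈ S := by
  unfold ind
  exact decide_eq_true_iff

/-- the map on the sets -/
theorem GPP_map (hHLA : HLA_stmt) (hHMN : HMN_stmt) (hSPT : SPT_stmt) (hGST : GST_stmt)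
    (hDCS : DCS_stmt) (hDEC : DEC_stmt) (X Y : List Pat) (w : Pt) (𝒬 : Set Om)
    (hQ : ∀ ω ω' : Om, (∀ c ∈ box 0 w, ¬ inG X Y ω w c → ω c = ω' c) → ω ∈ 𝒬 → ω' ∈ 𝒬)
    (S : Finset Pt) (hS : S ⊆ box 0 w) (hE : ¬ HL (X ++ [sw true] ++ Y) (ind S) 0 w)
    (hg : GP (GPP_G X Y w S)) (hSQ : ind S ∈ 𝒬) :
    DcS (GPP_G X Y w S) ∧ ∃ S' : Finset Pt, S' ⊆ box 0 w ∧
      ¬ HL (X ++ [sw false] ++ Y) (ind S') 0 w ∧
      GP (GPP_G X Y w S') ∧ ind S' ∈ 𝒬 ∧ S'.card = S.card ∧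
      (∀ c, inG X Y (ind S) w c ↔ inG X Y (ind S') w c) ∧
      (∀ c, ¬ inG X Y (ind S) w c → (c ∈ S ↔ c ∈ S')) ∧
      (GPP_G X Y w S').image Prod.fst = (GPP_G X Y w S).image Prod.fst ∧
      (GPP_G X Y w S').image Prod.snd = (GPP_G X Y w S).image Prod.snd := by
  have hmem : ∀ c, c ∈ GPP_G X Y w S ↔ c ∈ S ∧ inG X Y (ind S) w c := fun c =>
    Finset.mem_filter
  have hdc : DcS (GPP_G X Y w S) := by
    refine ⟨hg, ?_⟩
    intro u hu v hv h1
    by_contra h2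
    push Not at h2
    have hne : u.2 ≠ v.2 := by
      intro he
      have := hg u hu v hv (Or.inr he)
      rw [this] at h1
      exact lt_irrefl _ h1
    have h3 : u.2 < v.2 := lt_of_le_of_ne h2 hne
    obtain ⟨hu1, p, q, hp, _, hub⟩ := (hmem u).1 hu
    obtain ⟨hv1, p', q', _, hq', hvb⟩ := (hmem v).1 hv
    rw [mem_box] at hub hvb
    refine hE ((hSPT.1 X [sw true] Y (ind S) w).2 ⟨p, q', hp, hq', ?_⟩)
    refine GPP_12 hHLA (ind S) p q' u v (GPP_ind.2 hu1) (GPP_ind.2 hv1) ?_ ?_ h1 h3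
    · rw [mem_box]
      exact ⟨hub.1, ⟨by omega, by omega⟩⟩
    · rw [mem_box]
      exact ⟨⟨by omega, by omega⟩, hvb.2⟩
  refine ⟨hdc, ?_⟩
  obtain ⟨T', hc, hf, hs, hbx, hdec, hgp⟩ := GPP_ex hDCS hDEC (GPP_G X Y w S) hdc
    {b | mnU X (ind S) b.1 ∧ mxV Y (ind S) w b.2} (by
      intro c hc
      obtain ⟨_, p, q, hp, hq, hcb⟩ := (hmem c).1 hc
      exact ⟨(p, q), ⟨hp, hq⟩, hcb⟩)
  have hT'G : ∀ c ∈ T', inG X Y (ind S) w c := by
    intro c hc
    obtain ⟨b, hb, hcb⟩ := hbx c hc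
    exact ⟨b.1, b.2, hb.1, hb.2, hcb⟩
  set S₀ : Finset Pt := S.filter fun c => ¬ inG X Y (ind S) w c with hS₀
  set S' : Finset Pt := S₀ ∪ T' with hS'
  have hmem' : ∀ c, ¬ inG X Y (ind S) w c → (c ∈ S ↔ c ∈ S') := by
    intro c hc
    rw [hS', Finset.mem_union, hS₀, Finset.mem_filter]
    constructor
    · intro h
      exact Or.inl ⟨h, hc⟩
    · rintro (h | h)
      · exact h.1
      · exact absurd (hT'G c h) hc
  have hagree : ∀ c ∈ box 0 w, ¬ inG X Y (ind S) w c → ind S c = ind S' c := by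
    intro c _ hc
    unfold ind
    rw [decide_eq_decide]
    exact hmem' c hc
  obtain ⟨hgs1, hgs2, hgs3⟩ := hGST X Y (ind S) (ind S') w hagree
  have hG' : GPP_G X Y w S' = T' := by
    ext c
    unfold GPP_G
    rw [Finset.mem_filter, ← hgs3 c, hS', Finset.mem_union, hS₀, Finset.mem_filter]
    constructor
    · rintro ⟨h | h, h2⟩
      · exact absurd h2 h.2
      · exact h
    · intro h
      exact ⟨Or.inr h, hT'G c h⟩
  refine ⟨S', ?_, ?_, ?_, hQ _ _ hagree hSQ, ?_, hgs3, hmem', ?_, ?_⟩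
  · intro c hcS
    rw [hS', Finset.mem_union, hS₀, Finset.mem_filter] at hcS
    rcases hcS with h | h
    · exact hS h.1
    · exact GPP_inG_box hHMN (hT'G c h)
  · intro hE0
    obtain ⟨p, q, hp, hq, hpq⟩ := (hSPT.1 X [sw false] Y (ind S') w).1 hE0
    obtain ⟨u, v, hu, hv, hub, hvb, h1, h2⟩ := GPP_21 hHLA (ind S') p q hpq
    have hqw := hHMN.2.2.2.2.1 Y (ind S') w q hq
    have hpw : p ≤ w := by
      have := hHLA.1 [sw false] (ind S') p q hpq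
      exact this.trans hqw
    have hp' : mnU X (ind S) p := (hgs1 p hpw).2 hp
    have hq' : mxV Y (ind S) w q := (hgs2 q).2 hq
    have hin : ∀ c, c ∈ box p q → ind S' c = true → c ∈ T' := by
      intro c hcb hct
      rw [← hG']
      exact Finset.mem_filter.2 ⟨GPP_ind.1 hct, (hgs3 c).1 ⟨p, q, hp', hq', hcb⟩⟩
    exact hdec (p, q) ⟨hp', hq'⟩ u (hin u hub hu) v (hin v hvb hv) hub hvb h1 h2
  · rw [hG']
    exact hgp
  · have hdisj : Disjoint S₀ T' := by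
      rw [Finset.disjoint_left]
      intro c hc1 hc2
      rw [hS₀, Finset.mem_filter] at hc1
      exact hc1.2 (hT'G c hc2)
    rw [hS', Finset.card_union_of_disjoint hdisj, hc, hS₀]
    unfold GPP_G
    have := Finset.card_filter_add_card_filter_not (s := S) (fun c => inG X Y (ind S) w c)
    omega
  · rw [hG', hf]
  · rw [hG', hs]

/-- comparison of the sums -/
theorem GPP_sum (D : Finset Pt) (d : ℝ) (h0 : 0 ≤ d) (h1 : d ≤ 1) (A B : Finset Pt → Prop)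
    (Φ : Finset Pt → Finset Pt)
    (hΦ : ∀ S, S ⊆ D → A S → Φ S ⊆ D ∧ B (Φ S) ∧ (Φ S).card = S.card)
    (hinj : ∀ S S', S ⊆ D → S' ⊆ D → A S → A S' → Φ S = Φ S' → S = S') :
    Pr D d A ≤ Pr D d B := by
  unfold Pool.Agent.DSW.Pr
  have hd : 0 ≤ 1 - d := by linarith
  calc ∑ S ∈ D.powerset.filter A, d ^ S.card * (1 - d) ^ (D.card - S.card)
      = ∑ S ∈ D.powerset.filter A, d ^ (Φ S).card * (1 - d) ^ (D.card - (Φ S).card) := by
        refine Finset.sum_congr rfl fun S hS => ?_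
        obtain ⟨hS1, hS2⟩ := Finset.mem_filter.1 hS
        rw [(hΦ S (Finset.mem_powerset.1 hS1) hS2).2.2]
    _ = ∑ S ∈ (D.powerset.filter A).image Φ, d ^ S.card * (1 - d) ^ (D.card - S.card) := by
        rw [Finset.sum_image]
        intro S hS S' hS' he
        obtain ⟨hS1, hS2⟩ := Finset.mem_filter.1 hS
        obtain ⟨hS3, hS4⟩ := Finset.mem_filter.1 hS'
        exact hinj S S' (Finset.mem_powerset.1 hS1) (Finset.mem_powerset.1 hS3) hS2 hS4 he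
    _ ≤ ∑ S ∈ D.powerset.filter B, d ^ S.card * (1 - d) ^ (D.card - S.card) := by
        refine Finset.sum_le_sum_of_subset_of_nonneg ?_ fun S _ _ => by positivity
        intro S hS
        obtain ⟨S₁, hS₁, rfl⟩ := Finset.mem_image.1 hS
        obtain ⟨hS1, hS2⟩ := Finset.mem_filter.1 hS₁
        obtain ⟨c1, c2, _⟩ := hΦ S₁ (Finset.mem_powerset.1 hS1) hS2
        exact Finset.mem_filter.2 ⟨Finset.mem_powerset.2 c1, c2⟩

theorem GPP_mono (D : Finset Pt) (d : ℝ) (h0 : 0 ≤ d) (h1 : d ≤ 1) (A B : Finset Pt → Prop)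
    (h : ∀ S, S ⊆ D → A S → B S) : Pr D d A ≤ Pr D d B :=
  GPP_sum D d h0 h1 A B id (fun S hS hA => ⟨hS, h S hS hA, rfl⟩) fun _ _ _ _ _ _ he => he

theorem GPP_split (D : Finset Pt) (d : ℝ) (A B : Finset Pt → Prop) :
    Pr D d A = Pr D d (fun S => A S ∧ B S) + Pr D d (fun S => A S ∧ ¬ B S) := by
  unfold Pool.Agent.DSW.Pr
  refine (Finset.sum_filter_add_sum_filter_not (D.powerset.filter A) B _).symm.trans ?_
  refine congrArg₂ (· + ·) ?_ ?_
  · exact Finset.sum_congr (by ext S; simp only [Finset.mem_filter]; tauto) fun _ _ => rfl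
  · exact Finset.sum_congr (by ext S; simp only [Finset.mem_filter]; tauto) fun _ _ => rfl

theorem GPP_nonneg (D : Finset Pt) (d : ℝ) (h0 : 0 ≤ d) (h1 : d ≤ 1) (A : Finset Pt → Prop) :
    0 ≤ Pr D d A := by
  have hd : 0 ≤ 1 - d := by linarith
  exact Finset.sum_nonneg fun S _ => by positivity

theorem GPP (hMUM : MUM_stmt) (hHLA : HLA_stmt) (hHMN : HMN_stmt) (hSPT : SPT_stmt)
    (hGST : GST_stmt) (hDCS : DCS_stmt) (hDEC : DEC_stmt) : GPP_stmt := by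
  intro d X Y w 𝒬 h0 h1 hDQ hQ
  set D : Finset Pt := box 0 w with hD
  set E0 : Finset Pt → Prop := fun S => HL (X ++ [sw false] ++ Y) (ind S) 0 w with hE0
  set E1 : Finset Pt → Prop := fun S => HL (X ++ [sw true] ++ Y) (ind S) 0 w with hE1
  set g : Finset Pt → Prop := fun S => GP (GPP_G X Y w S) with hgd
  set q : Finset Pt → Prop := fun S => ind S ∈ 𝒬 with hq
  have dep0 : Dep D ({ω | HL (X ++ [sw false] ++ Y) ω 0 w} ∩ 𝒬) := by
    have := (hHLA.2.2.2.1 (X ++ [sw false] ++ Y) 0 w).inter hDQ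
    rwa [Finset.union_self] at this
  have dep1 : Dep D ({ω | HL (X ++ [sw true] ++ Y) ω 0 w} ∩ 𝒬) := by
    have := (hHLA.2.2.2.1 (X ++ [sw true] ++ Y) 0 w).inter hDQ
    rwa [Finset.union_self] at this
  have dep2 : Dep D {ω | ¬ GP (tr ω 0 w)} := Dep.tr 0 w fun S => ¬ GP S
  rw [(hMUM d D _ h0 h1 dep0).2, (hMUM d D _ h0 h1 dep1).2, (hMUM d D _ h0 h1 dep2).2,
    ← ENNReal.ofReal_add (GPP_nonneg D d h0 h1 _) (GPP_nonneg D d h0 h1 _)]
  refine ENNReal.ofReal_le_ofReal ?_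
  have htr : ∀ S, S ⊆ D → tr (ind S) 0 w = S := by
    intro S hS
    unfold tr
    ext c
    rw [Finset.mem_filter, GPP_ind]
    exact ⟨fun h => h.2, fun h => ⟨hS h, h⟩⟩
  -- the injection
  have key : Pr D d (fun S => (q S ∧ g S) ∧ ¬ E1 S) ≤ Pr D d (fun S => (q S ∧ g S) ∧ ¬ E0 S) := by
    have hmap := fun (S : Finset Pt) (hS : S ⊆ D) (hA : (q S ∧ g S) ∧ ¬ E1 S) =>
      GPP_map hHLA hHMN hSPT hGST hDCS hDEC X Y w 𝒬 hQ S hS hA.2 hA.1.2 hA.1.1
    choose! Φ hΦ using fun (S : Finset Pt) (hS : S ⊆ D) (hA : (q S ∧ g S) ∧ ¬ E1 S) =>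
      (hmap S hS hA).2
    refine GPP_sum D d h0 h1 _ _ Φ ?_ ?_
    · intro S hS hA
      obtain ⟨c1, c2, c3, c4, c5, _⟩ := hΦ S hS hA
      exact ⟨c1, ⟨⟨c4, c3⟩, c2⟩, c5⟩
    · intro S S' hS hS' hA hA' he
      obtain ⟨_, _, _, _, _, c6, c7, c8, c9⟩ := hΦ S hS hA
      obtain ⟨_, _, _, _, _, d6, d7, d8, d9⟩ := hΦ S' hS' hA'
      have hGG : ∀ c, inG X Y (ind S) w c ↔ inG X Y (ind S') w c := by
        intro c
        rw [c6 c, d6 c, he]
      have hTT : GPP_G X Y w S = GPP_G X Y w S' := by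
        refine hDCS.2 _ _ (hmap S hS hA).1 (hmap S' hS' hA').1 ?_ ?_
        · rw [← c8, ← d8, he]
        · rw [← c9, ← d9, he]
      ext c
      by_cases hc : inG X Y (ind S) w c
      · have e1 : c ∈ GPP_G X Y w S ↔ c ∈ S := by
          unfold GPP_G
          rw [Finset.mem_filter]
          exact ⟨fun h => h.1, fun h => ⟨h, hc⟩⟩
        have e2 : c ∈ GPP_G X Y w S' ↔ c ∈ S' := by
          unfold GPP_G
          rw [Finset.mem_filter]
          exact ⟨fun h => h.1, fun h => ⟨h, (hGG c).1 hc⟩⟩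
        rw [← e1, ← e2, hTT]
      · rw [c7 c hc, d7 c (fun h => hc ((hGG c).2 h)), he]
  have s1 := GPP_split D d (fun S => q S ∧ g S) E1
  have s0 := GPP_split D d (fun S => q S ∧ g S) E0
  have m1 : Pr D d (fun S => (q S ∧ g S) ∧ E1 S) ≤
      Pr D d (fun S => ind S ∈ ({ω | HL (X ++ [sw true] ++ Y) ω 0 w} ∩ 𝒬)) :=
    GPP_mono D d h0 h1 _ _ fun S _ h => ⟨h.2, h.1.1⟩
  have m0 : Pr D d (fun S => ind S ∈ ({ω | HL (X ++ [sw false] ++ Y) ω 0 w} ∩ 𝒬)) =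
      Pr D d (fun S => ind S ∈ ({ω | HL (X ++ [sw false] ++ Y) ω 0 w} ∩ 𝒬) ∧ g S) +
      Pr D d (fun S => ind S ∈ ({ω | HL (X ++ [sw false] ++ Y) ω 0 w} ∩ 𝒬) ∧ ¬ g S) :=
    GPP_split D d _ g
  have m2 : Pr D d (fun S => ind S ∈ ({ω | HL (X ++ [sw false] ++ Y) ω 0 w} ∩ 𝒬) ∧ g S) ≤
      Pr D d (fun S => (q S ∧ g S) ∧ E0 S) :=
    GPP_mono D d h0 h1 _ _ fun S _ h => ⟨⟨h.1.2, h.2⟩, h.1.1⟩
  have m3 : Pr D d (fun S => ind S ∈ ({ω | HL (X ++ [sw false] ++ Y) ω 0 w} ∩ 𝒬) ∧ ¬ g S) ≤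
      Pr D d (fun S => ind S ∈ {ω | ¬ GP (tr ω 0 w)}) := by
    refine GPP_mono D d h0 h1 _ _ fun S hS h => ?_
    show ¬ GP (tr (ind S) 0 w)
    rw [htr S hS]
    intro hgp
    refine h.2 ?_
    intro u hu v hv huv
    exact hgp u (Finset.mem_filter.1 hu).1 v (Finset.mem_filter.1 hv).1 huv
  linarith

end Pool.Agent.MSW
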